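import Mathlib.Geometry.Manifold.LocalDiffeomorph
import Mathlib.Geometry.Manifold.MFDeriv.Atlas
import Mathlib.Geometry.Manifold.MFDeriv.FDeriv
import Mathlib.Geometry.Manifold.MFDeriv.SpecificFunctions
import Mathlib.Geometry.Manifold.ContMDiff.Atlas
import Mathlib.Geometry.Manifold.ContMDiff.NormedSpace
import Mathlib.Geometry.Manifold.Metrizable
import Mathlib.Analysis.Calculus.InverseFunctionTheorem.ContDiff
import Mathlib.Analysis.Calculus.ContDiff.Operations
import Mathlib.Analysis.Normed.Module.FiniteDimension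
import Mathlib.Topology.Homotopy.Path
import Mathlib.Topology.Covering.Basic
import Mathlib.Topology.Connected.LocPathConnected
import Mathlib.Analysis.Convex.Star

-- ======== part 0: formerly Pool.Agent.MP_e1dc65_gt.Base
section MrgPart0

/-! PROJECT HC: bundled smooth manifolds, smooth maps, local diffeomorphisms. -/

open scoped ContDiff Manifold Topology
open Set Filter Function

noncomputable section

namespace Pool.Agent.MP_e1dc65_gt

/-- a nonempty smooth manifold without boundary modelled on `E` -/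
structure Mf (E : Type) [NormedAddCommGroup E] [NormedSpace ℝ E] where
  carrier : Type
  [top : TopologicalSpace carrier]
  [chart : ChartedSpace E carrier]
  [smooth : IsManifold 𝓘(ℝ, E) ∞ carrier]
  [t2 : T2Space carrier]
  [sc : SecondCountableTopology carrier]
  [ne : Nonempty carrier]

attribute [instance] Mf.top Mf.chart Mf.smooth Mf.t2 Mf.sc Mf.ne

variable {E E' E'' E₃ : Type} [NormedAddCommGroup E] [NormedSpace ℝ E] [NormedAddCommGroup E']
  [NormedSpace ℝ E'] [NormedAddCommGroup E''] [NormedSpace ℝ E''] [NormedAddCommGroup E₃]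
  [NormedSpace ℝ E₃]

instance : CoeSort (Mf E) Type := ⟨Mf.carrier⟩

/-- a finite-dimensional vector space as a manifold -/
abbrev vs (E : Type) [NormedAddCommGroup E] [NormedSpace ℝ E] [FiniteDimensional ℝ E] : Mf E :=
  { carrier := E, sc := haveI := FiniteDimensional.proper_real E; inferInstance }

/-- product manifold, modelled on the product of the models -/
abbrev Mf.prod (X : Mf E) (Y : Mf E') : Mf (E × E') :=
  { carrier := X × Y
    chart := prodChartedSpace E X E' Y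
    smooth := by rw [modelWithCornersSelf_prod]; exact IsManifold.prod X Y }

/-- a nonempty open subset as a manifold -/
abbrev Mf.opens (X : Mf E) (U : Set X) (hU : IsOpen U) (hne : U.Nonempty) : Mf E :=
  { carrier := (⟨U, hU⟩ : TopologicalSpace.Opens X), ne := hne.to_subtype }

instance (X : Mf E) [FiniteDimensional ℝ E] : LocallyCompactSpace X :=
  haveI := FiniteDimensional.proper_real E
  ChartedSpace.locallyCompactSpace E X

instance (X : Mf E) [FiniteDimensional ℝ E] : TopologicalSpace.MetrizableSpace X :=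
  Manifold.metrizableSpace 𝓘(ℝ, E) X

instance (X : Mf E) : LocallyPathConnectedSpace X := ChartedSpace.locallyPathConnectedSpace E X

/-- smooth at a point (this does not give smoothness near the point: use `Sm` on open sets) -/
abbrev SmAt (X : Mf E) (Y : Mf E') (f : X → Y) (x : X) : Prop :=
  ContMDiffAt 𝓘(ℝ, E) 𝓘(ℝ, E') ∞ f x

/-- smooth at every point of `U` -/
def Sm (X : Mf E) (Y : Mf E') (f : X → Y) (U : Set X) : Prop := ∀ x ∈ U, SmAt X Y f x

/-- the differential, read in the preferred charts -/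
def Df (X : Mf E) (Y : Mf E') (f : X → Y) (x : X) : E →L[ℝ] E' := mfderiv 𝓘(ℝ, E) 𝓘(ℝ, E') f x

/-- local diffeomorphism at a point -/
abbrev LDAt (X : Mf E) (Y : Mf E') (f : X → Y) (x : X) : Prop :=
  IsLocalDiffeomorphAt 𝓘(ℝ, E) 𝓘(ℝ, E') ∞ f x

/-- `f` is a diffeomorphism of the open set `U` onto an open subset of `Y` -/
structure OE (X : Mf E) (Y : Mf E') (f : X → Y) (U : Set X) : Prop where
  op : IsOpen U
  ld : ∀ x ∈ U, LDAt X Y f x
  inj : InjOn f U

/-- the preferred chart -/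
abbrev ch (X : Mf E) (x : X) : OpenPartialHomeomorph X E := chartAt E x

variable {X : Mf E} {Y : Mf E'} {Z : Mf E''} {f f' : X → Y} {g : Y → Z} {x : X} {U V : Set X}

/-! ### Smooth maps -/

theorem SmAt.cont (h : SmAt X Y f x) : ContinuousAt f x := h.continuousAt
theorem SmAt.trans (hf : SmAt X Y f x) (hg : SmAt Y Z g (f x)) : SmAt X Z (fun x => g (f x)) x :=
  hg.comp x hf
theorem SmAt.congr' (h : SmAt X Y f x) (e : f' =ᶠ[𝓝 x] f) : SmAt X Y f' x :=
  h.congr_of_eventuallyEq e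
theorem smAt_id : SmAt X X (fun x => x) x := contMDiffAt_id
theorem smAt_const (c : Y) : SmAt X Y (fun _ => c) x := contMDiffAt_const
theorem SmAt.md (h : SmAt X Y f x) : MDifferentiableAt 𝓘(ℝ, E) 𝓘(ℝ, E') f x :=
  h.mdifferentiableAt (by simp)

theorem Sm.mono (h : Sm X Y f U) (hV : V ⊆ U) : Sm X Y f V := fun x hx => h x (hV hx)
theorem Sm.contOn (h : Sm X Y f U) : ContinuousOn f U := fun x hx =>
  (h x hx).cont.continuousWithinAt
theorem Sm.cont (h : Sm X Y f univ) : Continuous f := continuousOn_univ.1 h.contOn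
theorem sm_iff (hU : IsOpen U) : Sm X Y f U ↔ ContMDiffOn 𝓘(ℝ, E) 𝓘(ℝ, E') ∞ f U :=
  ⟨fun h x hx => (h x hx).contMDiffWithinAt, fun h _ hx => h.contMDiffAt (hU.mem_nhds hx)⟩
theorem sm_univ : Sm X Y f univ ↔ ContMDiff 𝓘(ℝ, E) 𝓘(ℝ, E') ∞ f :=
  ⟨fun h x => h x trivial, fun h x _ => h x⟩

theorem smAt_vs [FiniteDimensional ℝ E] [FiniteDimensional ℝ E'] {f : E → E'} {x : E} :
    SmAt (vs E) (vs E') f x ↔ ContDiffAt ℝ ∞ f x := contMDiffAt_iff_contDiffAt

theorem SmAt.vcomp [FiniteDimensional ℝ E'] [FiniteDimensional ℝ E''] {f : X → E'} {g : E' → E''}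
    (hf : SmAt X (vs E') f x) (hg : ContDiffAt ℝ ∞ g (f x)) :
    SmAt X (vs E'') (fun x => g (f x)) x := hg.comp_contMDiffAt hf

theorem smAt_fst {p : X.prod Y} : SmAt (X.prod Y) X Prod.fst p := by
  unfold SmAt; rw [modelWithCornersSelf_prod]; exact contMDiffAt_fst
theorem smAt_snd {p : X.prod Y} : SmAt (X.prod Y) Y Prod.snd p := by
  unfold SmAt; rw [modelWithCornersSelf_prod]; exact contMDiffAt_snd
theorem SmAt.pair {g : X → Z} (hf : SmAt X Y f x) (hg : SmAt X Z g x) :
    SmAt X (Y.prod Z) (fun x => (f x, g x)) x := by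
  unfold SmAt; rw [modelWithCornersSelf_prod]; exact hf.prodMk hg
theorem SmAt.vpair [FiniteDimensional ℝ E'] [FiniteDimensional ℝ E''] {f : X → E'} {g : X → E''}
    (hf : SmAt X (vs E') f x) (hg : SmAt X (vs E'') g x) :
    SmAt X (vs (E' × E'')) (fun x => (f x, g x)) x := hf.prodMk_space hg
theorem vs_prod [FiniteDimensional ℝ E] [FiniteDimensional ℝ E'] :
    (vs E).prod (vs E') = vs (E × E') := by
  unfold Mf.prod vs
  congr 1
  · exact chartedSpaceSelf_prod
  · exact proof_irrel_heq _ _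
/-- the identity from the product of two vector spaces to the product vector space -/
theorem smAt_prod_vs [FiniteDimensional ℝ E] [FiniteDimensional ℝ E'] {p : E × E'} :
    SmAt ((vs E).prod (vs E')) (vs (E × E')) (fun p => p) p := smAt_fst.vpair smAt_snd
theorem smAt_vs_prod [FiniteDimensional ℝ E] [FiniteDimensional ℝ E'] {p : E × E'} :
    SmAt (vs (E × E')) ((vs E).prod (vs E')) (fun p => p) p :=
  SmAt.pair (X := vs (E × E')) (Y := vs E) (Z := vs E') (smAt_vs.2 contDiffAt_fst)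
    (smAt_vs.2 contDiffAt_snd)
theorem smAt_val {hU : IsOpen U} {hne} {p : X.opens U hU hne} :
    SmAt (X.opens U hU hne) X Subtype.val p := contMDiff_subtype_val p

theorem smAt_ch [FiniteDimensional ℝ E] {y : X} (h : y ∈ (ch X x).source) :
    SmAt X (vs E) (ch X x) y := contMDiffOn_chart.contMDiffAt ((ch X x).open_source.mem_nhds h)
theorem smAt_ch_symm [FiniteDimensional ℝ E] {y : E} (h : y ∈ (ch X x).target) :
    SmAt (vs E) X (ch X x).symm y :=
  contMDiffOn_chart_symm.contMDiffAt ((ch X x).open_target.mem_nhds h)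

/-! ### The differential -/

theorem Df_comp (hf : SmAt X Y f x) (hg : SmAt Y Z g (f x)) :
    Df X Z (fun x => g (f x)) x = (Df Y Z g (f x)).comp (Df X Y f x) := mfderiv_comp x hg.md hf.md
theorem Df_congr (e : f =ᶠ[𝓝 x] f') : Df X Y f x = Df X Y f' x := e.mfderiv_eq
@[simp] theorem Df_id : Df X X (fun x => x) x = ContinuousLinearMap.id ℝ E := mfderiv_id
@[simp] theorem Df_const (c : Y) : Df X Y (fun _ => c) x = 0 := mfderiv_const
theorem Df_vs [FiniteDimensional ℝ E] [FiniteDimensional ℝ E'] (f : E → E') (x : E) :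
    Df (vs E) (vs E') f x = fderiv ℝ f x := mfderiv_eq_fderiv
theorem Df_vcomp [FiniteDimensional ℝ E'] [FiniteDimensional ℝ E''] {f : X → E'} {g : E' → E''}
    (hf : SmAt X (vs E') f x) (hg : ContDiffAt ℝ ∞ g (f x)) :
    Df X (vs E'') (fun x => g (f x)) x = (fderiv ℝ g (f x)).comp (Df X (vs E') f x) := by
  rw [← Df_vs]; exact Df_comp (Y := vs E') (Z := vs E'') hf (smAt_vs.2 hg)
@[simp] theorem Df_fst (p : X.prod Y) :
    Df (X.prod Y) X Prod.fst p = ContinuousLinearMap.fst ℝ E E' := by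
  unfold Df; rw [modelWithCornersSelf_prod]; exact mfderiv_fst
@[simp] theorem Df_snd (p : X.prod Y) :
    Df (X.prod Y) Y Prod.snd p = ContinuousLinearMap.snd ℝ E E' := by
  unfold Df; rw [modelWithCornersSelf_prod]; exact mfderiv_snd
theorem Df_pair {g : X → Z} (hf : SmAt X Y f x) (hg : SmAt X Z g x) :
    Df X (Y.prod Z) (fun x => (f x, g x)) x = (Df X Y f x).prod (Df X Z g x) := by
  unfold Df; rw [modelWithCornersSelf_prod]; exact mfderiv_prodMk hf.md hg.md
theorem Df_ch_self [FiniteDimensional ℝ E] :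
    Df X (vs E) (ch X x) x = ContinuousLinearMap.id ℝ E := mfderiv_extChartAt_self (I := 𝓘(ℝ, E))

/-! ### Local diffeomorphisms -/

theorem LDAt.sm (h : LDAt X Y f x) : SmAt X Y f x := h.contMDiffAt
theorem LDAt.trans (hf : LDAt X Y f x) (hg : LDAt Y Z g (f x)) : LDAt X Z (fun x => g (f x)) x :=
  IsLocalDiffeomorphAt.comp _ _ hf hg
theorem LDAt.inv (h : LDAt X Y f x) : (Df X Y f x).IsInvertible :=
  ⟨h.mfderivToContinuousLinearEquiv (by simp), rfl⟩
theorem LDAt.ev (h : LDAt X Y f x) : ∀ᶠ y in 𝓝 x, LDAt X Y f y := by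
  obtain ⟨Φ, hx, e⟩ := h
  filter_upwards [Φ.open_source.mem_nhds hx] with y hy using ⟨Φ, hy, e⟩

/-- the basic criterion: a two-sided smooth inverse on open sets -/
theorem ldAt_of_inv {g : Y → X} {W : Set Y} (hU : IsOpen U) (hW : IsOpen W) (hx : x ∈ U)
    (hf : Sm X Y f U) (hg : Sm Y X g W) (m1 : MapsTo f U W) (m2 : MapsTo g W U)
    (l : ∀ x ∈ U, g (f x) = x) (r : ∀ y ∈ W, f (g y) = y) : LDAt X Y f x :=
  ⟨⟨⟨f, g, U, W, m1, m2, l, r⟩, hU, hW, (sm_iff hU).1 hf, (sm_iff hW).1 hg⟩, hx, fun _ _ => rfl⟩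

/-- a local diffeomorphism has a local inverse on arbitrarily small open sets -/
theorem LDAt.exists_inv (h : LDAt X Y f x) (hV : V ∈ 𝓝 x) : ∃ (g : Y → X) (U : Set X) (W : Set Y),
    IsOpen U ∧ IsOpen W ∧ x ∈ U ∧ U ⊆ V ∧ Sm X Y f U ∧ Sm Y X g W ∧ MapsTo f U W ∧ MapsTo g W U ∧
      (∀ x ∈ U, g (f x) = x) ∧ ∀ y ∈ W, f (g y) = y := by
  obtain ⟨Φ, hx, e⟩ := h
  obtain ⟨O, hOV, hO, hxO⟩ := mem_nhds_iff.1 hV
  have hW : IsOpen (Φ.target ∩ Φ.symm ⁻¹' O) :=
    Φ.contMDiffOn_invFun.continuousOn.isOpen_inter_preimage Φ.open_target hO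
  refine ⟨Φ.symm, Φ.source ∩ O, Φ.target ∩ Φ.symm ⁻¹' O, Φ.open_source.inter hO, hW, ⟨hx, hxO⟩,
    fun y hy => hOV hy.2, fun y hy => ?_, fun y hy => ?_, fun y hy => ?_, fun y hy => ?_,
    fun y hy => ?_, fun y hy => ?_⟩
  · exact LDAt.sm ⟨Φ, hy.1, e⟩
  · exact Φ.contMDiffOn_invFun.contMDiffAt (Φ.open_target.mem_nhds hy.1)
  · rw [e hy.1]
    exact ⟨Φ.map_source hy.1, by
      have : Φ.symm (Φ y) = y := Φ.left_inv hy.1
      rw [mem_preimage, this]; exact hy.2⟩
  · exact ⟨Φ.map_target hy.1, hy.2⟩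
  · rw [e hy.1]; exact Φ.left_inv hy.1
  · exact (e (Φ.map_target hy.1)).trans (Φ.right_inv hy.1)

theorem LDAt.congr' (h : LDAt X Y f x) (e : f' =ᶠ[𝓝 x] f) : LDAt X Y f' x := by
  obtain ⟨g, U, W, hU, hW, hx, hUV, hf, hg, m1, m2, l, r⟩ := h.exists_inv e.eventuallyEq_nhds
  have e1 : ∀ y ∈ U, f' y = f y := fun y hy => (hUV hy).eq_of_nhds
  exact ldAt_of_inv hU hW hx (fun y hy => (hf y hy).congr' (hUV hy)) hg
    (fun y hy => e1 y hy ▸ m1 hy) m2 (fun y hy => by rw [e1 y hy, l y hy])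
    fun y hy => by rw [e1 _ (m2 hy), r y hy]

theorem ldAt_id : LDAt X X (fun x => x) x :=
  ldAt_of_inv (g := fun x => x) isOpen_univ isOpen_univ trivial (fun _ _ => smAt_id)
    (fun _ _ => smAt_id) (mapsTo_univ _ _) (mapsTo_univ _ _) (fun _ _ => rfl) fun _ _ => rfl

theorem LDAt.map_nhds (h : LDAt X Y f x) : map f (𝓝 x) = 𝓝 (f x) := by
  obtain ⟨Φ, hx, e⟩ := h
  rw [map_congr (e.eventuallyEq_of_mem (Φ.open_source.mem_nhds hx)), e hx]
  exact Φ.toOpenPartialHomeomorph.map_nhds_eq hx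

theorem LDAt.image_mem (h : LDAt X Y f x) (hV : V ∈ 𝓝 x) : f '' V ∈ 𝓝 (f x) :=
  h.map_nhds ▸ image_mem_map hV

theorem isOpen_image_ld (hU : IsOpen U) (h : ∀ x ∈ U, LDAt X Y f x) : IsOpen (f '' U) :=
  isOpen_iff_mem_nhds.2 (by rintro _ ⟨x, hx, rfl⟩; exact (h x hx).image_mem (hU.mem_nhds hx))

/-- descent of smoothness along a local diffeomorphism -/
theorem LDAt.sm_of_comp (hf : LDAt X Y f x) (h : SmAt X Z (fun x => g (f x)) x) :
    SmAt Y Z g (f x) := by
  obtain ⟨k, U, W, -, hW, hx, -, -, hk, m1, -, l, r⟩ := hf.exists_inv univ_mem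
  have h' : SmAt X Z (fun x => g (f x)) (k (f x)) := by rwa [l x hx]
  refine ((hk _ (m1 hx)).trans h').congr' ?_
  filter_upwards [hW.mem_nhds (m1 hx)] with y hy
  rw [r y hy]

/-- two out of three for local diffeomorphisms -/
theorem LDAt.ld_of_comp (hf : LDAt X Y f x) (h : LDAt X Z (fun x => g (f x)) x) :
    LDAt Y Z g (f x) := by
  obtain ⟨k, U, W, hU, hW, hx, -, hf', hk, m1, m2, l, r⟩ := hf.exists_inv univ_mem
  have h' : LDAt X Z (fun x => g (f x)) (k (f x)) := by rwa [l x hx]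
  refine ((ldAt_of_inv hW hU (m1 hx) hk hf' m2 m1 r l).trans h').congr' ?_
  filter_upwards [hW.mem_nhds (m1 hx)] with y hy
  rw [r y hy]

/-- lifting through a local diffeomorphism: `f` continuous and `g ∘ f` smooth -/
theorem LDAt.sm_of_lift (hg : LDAt Y Z g (f x)) (hc : ContinuousAt f x)
    (h : SmAt X Z (fun x => g (f x)) x) : SmAt X Y f x := by
  obtain ⟨k, U, W, hU, -, hx, -, -, hk, m1, -, l, -⟩ := hg.exists_inv univ_mem
  refine (h.trans (hk _ (m1 hx))).congr' ?_
  filter_upwards [hc.preimage_mem_nhds (hU.mem_nhds hx)] with y hy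
  rw [l _ hy]

theorem LDAt.ld_of_lift (hg : LDAt Y Z g (f x)) (hc : ContinuousAt f x)
    (h : LDAt X Z (fun x => g (f x)) x) : LDAt X Y f x := by
  obtain ⟨k, U, W, hU, hW, hx, -, hg', hk, m1, m2, l, r⟩ := hg.exists_inv univ_mem
  refine (h.trans (ldAt_of_inv hW hU (m1 hx) hk hg' m2 m1 r l)).congr' ?_
  filter_upwards [hc.preimage_mem_nhds (hU.mem_nhds hx)] with y hy
  rw [l _ hy]

theorem ldAt_ch [FiniteDimensional ℝ E] {y : X} (h : y ∈ (ch X x).source) :
    LDAt X (vs E) (ch X x) y :=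
  ldAt_of_inv (Y := vs E) (ch X x).open_source (ch X x).open_target h (fun _ => smAt_ch)
    (fun _ => smAt_ch_symm) (ch X x).mapsTo (ch X x).symm_mapsTo (fun _ => (ch X x).left_inv)
    fun _ => (ch X x).right_inv
theorem ldAt_ch_symm [FiniteDimensional ℝ E] {y : E} (h : y ∈ (ch X x).target) :
    LDAt (vs E) X (ch X x).symm y :=
  ldAt_of_inv (X := vs E) (ch X x).open_target (ch X x).open_source h (fun _ => smAt_ch_symm)
    (fun _ => smAt_ch) (ch X x).symm_mapsTo (ch X x).mapsTo (fun _ => (ch X x).right_inv)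
    fun _ => (ch X x).left_inv

theorem LDAt.prodMap {T : Mf E₃} {k : Z → T} {z : Z} (hf : LDAt X Y f x) (hk : LDAt Z T k z) :
    LDAt (X.prod Z) (Y.prod T) (fun p => (f p.1, k p.2)) (x, z) := by
  obtain ⟨g, U, W, hU, hW, hx, -, hf', hg, m1, m2, l, r⟩ := hf.exists_inv univ_mem
  obtain ⟨g', U', W', hU', hW', hx', -, hk', hg', m1', m2', l', r'⟩ := hk.exists_inv univ_mem
  exact ldAt_of_inv (g := fun p => (g p.1, g' p.2)) (hU.prod hU') (hW.prod hW') ⟨hx, hx'⟩
    (fun p hp => (smAt_fst.trans (hf' _ hp.1)).pair (smAt_snd.trans (hk' _ hp.2)))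
    (fun p hp => (smAt_fst.trans (hg _ hp.1)).pair (smAt_snd.trans (hg' _ hp.2)))
    (fun p hp => ⟨m1 hp.1, m1' hp.2⟩) (fun p hp => ⟨m2 hp.1, m2' hp.2⟩)
    (fun p hp => Prod.ext (l _ hp.1) (l' _ hp.2)) fun p hp => Prod.ext (r _ hp.1) (r' _ hp.2)

/-- inverse function theorem in vector spaces -/
theorem ldAt_vs [FiniteDimensional ℝ E] [FiniteDimensional ℝ E'] {f : E → E'} {x : E} {U : Set E}
    (hU : U ∈ 𝓝 x) (hf : ∀ y ∈ U, ContDiffAt ℝ ∞ f y) (hi : (fderiv ℝ f x).IsInvertible) :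
    LDAt (vs E) (vs E') f x := by
  haveI := FiniteDimensional.complete ℝ E
  obtain ⟨L, hL⟩ := hi
  have h0 := hf x (mem_of_mem_nhds hU)
  have hd : HasFDerivAt f (L : E →L[ℝ] E') x := hL ▸ (h0.differentiableAt (by simp)).hasFDerivAt
  let e := h0.toOpenPartialHomeomorph f hd (by simp)
  have hc : ContinuousAt (fderiv ℝ f) x := (h0.fderiv_right (m := 0) (by simp)).continuousAt
  have hO : ∀ᶠ y in 𝓝 x, y ∈ U ∧ (fderiv ℝ f y).IsInvertible := by
    refine Eventually.and hU (hc.eventually ?_)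
    rw [← hL]
    exact ContinuousLinearEquiv.isOpen.mem_nhds ⟨L, rfl⟩
  obtain ⟨O, hO1, hO2, hxO⟩ := mem_nhds_iff.1 hO
  have hW : IsOpen (e.target ∩ e.symm ⁻¹' O) := e.isOpen_inter_preimage_symm hO2
  refine ldAt_of_inv (X := vs E) (Y := vs E') (g := e.symm) (e.open_source.inter hO2) hW
    ⟨h0.mem_toOpenPartialHomeomorph_source hd (by simp), hxO⟩
    (fun y hy => smAt_vs.2 (hf y (hO1 hy.2).1)) (fun y hy => smAt_vs.2 ?_)
    (fun y hy => ⟨e.map_source hy.1, ?_⟩) (fun y hy => ⟨e.map_target hy.1, hy.2⟩)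
    (fun y hy => e.left_inv hy.1) fun y hy => e.right_inv hy.1
  · obtain ⟨h1, L', hL'⟩ := hO1 hy.2
    exact e.contDiffAt_symm (f₀' := L') hy.1
      (hL' ▸ ((hf _ h1).differentiableAt (by simp)).hasFDerivAt) (hf _ h1)
  · have : e.symm (f y) = y := e.left_inv hy.1
    rw [mem_preimage, this]; exact hy.2

/-- inverse function theorem -/
theorem ldAt_of_Df [FiniteDimensional ℝ E] [FiniteDimensional ℝ E'] (hU : U ∈ 𝓝 x)
    (hf : Sm X Y f U) (hi : (Df X Y f x).IsInvertible) : LDAt X Y f x := by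
  have hx := mem_chart_source E x
  have hy := mem_chart_source E' (f x)
  have h0 := hf x (mem_of_mem_nhds hU)
  have a1 : LDAt (vs E) X (ch X x).symm (ch X x x) := ldAt_ch_symm ((ch X x).map_source hx)
  have e0 : (ch X x).symm (ch X x x) = x := (ch X x).left_inv hx
  have a2 : LDAt Y (vs E') (ch Y (f x)) (f ((ch X x).symm (ch X x x))) := ldAt_ch (by rwa [e0])
  have h1 : SmAt X Y f ((ch X x).symm (ch X x x)) := by rwa [e0]
  have key : LDAt (vs E) (vs E') (fun y => ch Y (f x) (f ((ch X x).symm y))) (ch X x x) := by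
    refine ldAt_vs (U := (ch X x).target ∩ (ch X x).symm ⁻¹' (U ∩ f ⁻¹' (ch Y (f x)).source))
      (inter_mem ((ch X x).open_target.mem_nhds ((ch X x).map_source hx))
        (a1.sm.cont.preimage_mem_nhds ?_)) (fun y hy => smAt_vs.1 ?_) ?_
    · rw [e0]
      exact inter_mem hU (h0.cont.preimage_mem_nhds ((ch Y (f x)).open_source.mem_nhds hy))
    · exact ((smAt_ch_symm hy.1).trans (hf _ hy.2.1)).trans (smAt_ch hy.2.2)
    · rw [← Df_vs, Df_comp (a1.sm.trans h1) a2.sm, Df_comp a1.sm h1]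
      exact a2.inv.comp (ContinuousLinearMap.IsInvertible.comp (by rwa [e0]) a1.inv)
  have := a1.ld_of_comp (g := f) (LDAt.ld_of_lift (X := vs E) (f := fun y => f ((ch X x).symm y)) a2
    (a1.sm.trans h1).cont key)
  rwa [e0] at this

theorem ldAt_cle [FiniteDimensional ℝ E] [FiniteDimensional ℝ E'] (L : E ≃L[ℝ] E') (x : E) :
    LDAt (vs E) (vs E') L x :=
  ldAt_vs univ_mem (fun _ _ => L.contDiff.contDiffAt) (by rw [L.fderiv]; exact ⟨L, rfl⟩)

theorem ldAt_val [FiniteDimensional ℝ E] {hU : IsOpen U} {hne} {p : X.opens U hU hne} :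
    LDAt (X.opens U hU hne) X Subtype.val p := by
  classical
  exact ldAt_of_inv (X := X.opens U hU hne) (g := fun y => if h : y ∈ U then ⟨y, h⟩ else p)
    isOpen_univ hU trivial (fun _ _ => smAt_val)
    (fun y hy => by
      refine (ContMDiffAt.subtypeVal_comp_iff (U := ⟨U, hU⟩) _ y).1 (smAt_id.congr' ?_)
      filter_upwards [hU.mem_nhds hy] with z hz
      simp [hz])
    (fun q _ => q.2) (mapsTo_univ _ _) (fun q _ => dif_pos q.2) fun y hy => by simp [hy]

/-! ### Open embeddings -/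

theorem OE.sm (h : OE X Y f U) : Sm X Y f U := fun x hx => (h.ld x hx).sm
theorem OE.mono (h : OE X Y f U) (hV : IsOpen V) (hs : V ⊆ U) : OE X Y f V :=
  ⟨hV, fun x hx => h.ld x (hs hx), h.inj.mono hs⟩
theorem OE.isOpen_image (h : OE X Y f U) (hV : IsOpen V) (hs : V ⊆ U) : IsOpen (f '' V) :=
  isOpen_image_ld hV fun x hx => h.ld x (hs hx)
theorem OE.congr (h : OE X Y f U) (e : EqOn f' f U) : OE X Y f' U :=
  ⟨h.op, fun x hx => (h.ld x hx).congr' (e.eventuallyEq_of_mem (h.op.mem_nhds hx)),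
    h.inj.congr e.symm⟩
theorem OE.trans {W : Set Y} (hf : OE X Y f U) (hg : OE Y Z g W) (m : MapsTo f U W) :
    OE X Z (fun x => g (f x)) U :=
  ⟨hf.op, fun x hx => (hf.ld x hx).trans (hg.ld _ (m hx)), hg.inj.comp hf.inj m⟩
theorem oe_id (hU : IsOpen U) : OE X X (fun x => x) U := ⟨hU, fun _ _ => ldAt_id, injOn_id U⟩
theorem oe_of_inv {g : Y → X} {W : Set Y} (hU : IsOpen U) (hW : IsOpen W)
    (hf : Sm X Y f U) (hg : Sm Y X g W) (m1 : MapsTo f U W) (m2 : MapsTo g W U)
    (l : ∀ x ∈ U, g (f x) = x) (r : ∀ y ∈ W, f (g y) = y) : OE X Y f U :=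
  ⟨hU, fun _ hx => ldAt_of_inv hU hW hx hf hg m1 m2 l r, LeftInvOn.injOn l⟩

/-- the inverse of an open embedding is `invFunOn f U` -/
theorem OE.left (h : OE X Y f U) (hx : x ∈ U) : invFunOn f U (f x) = x := h.inj.leftInvOn_invFunOn hx
theorem OE.symm (h : OE X Y f U) : OE Y X (invFunOn f U) (f '' U) := by
  refine ⟨h.isOpen_image h.op subset_rfl, ?_, invFunOn_injOn_image f U⟩
  rintro _ ⟨x, hx, rfl⟩
  refine (h.ld x hx).ld_of_comp (ldAt_id.congr' ?_)
  filter_upwards [h.op.mem_nhds hx] with y hy using h.left hy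

theorem oe_ch [FiniteDimensional ℝ E] : OE X (vs E) (ch X x) (ch X x).source :=
  ⟨(ch X x).open_source, fun _ => ldAt_ch, (ch X x).injOn⟩
theorem oe_ch_symm [FiniteDimensional ℝ E] : OE (vs E) X (ch X x).symm (ch X x).target :=
  ⟨(ch X x).open_target, fun _ => ldAt_ch_symm, (ch X x).symm.injOn⟩

end Pool.Agent.MP_e1dc65_gt

end
end MrgPart0

-- ======== part 1: formerly Pool.Agent.MP_e1dc65_gt.Top
section MrgPart1

/-! PROJECT HC: paths in subsets, group-valued holonomy, parallel sections; statements of the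
topological toolkit. -/

open scoped Topology unitInterval
open Set Filter

noncomputable section

namespace Pool.Agent.MP_e1dc65_gt

section Defs
variable {X : Type} [TopologicalSpace X] {G : Type} [Group G]

/-- the path lies in `S` -/
abbrev In {x y : X} (γ : Path x y) (S : Set X) : Prop := ∀ t, γ t ∈ S

/-- homotopic with fixed end points inside `T` -/
def HIn (T : Set X) {x y : X} (γ δ : Path x y) : Prop := ∃ H : γ.Homotopy δ, ∀ p, H p ∈ T

/-- every loop in `S` is null-homotopic in `T` -/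
def Thin (S T : Set X) : Prop := ∀ x (γ : Path x x), In γ S → HIn T γ (Path.refl x)

/-- simply connected subset -/
def SC (S : Set X) : Prop := IsPathConnected S ∧ Thin S S

/-- a functor from the fundamental groupoid of `T` to the group `G` -/
structure Hol (T : Set X) (τ : ∀ x y : X, Path x y → G) : Prop where
  mul : ∀ x y z (γ : Path x y) (δ : Path y z), In γ T → In δ T →
    τ x z (γ.trans δ) = τ x y γ * τ y z δ
  hom : ∀ x y (γ δ : Path x y), HIn T γ δ → τ x y γ = τ x y δ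

/-- `s` is a parallel section (potential) of `τ` on `S` -/
def Par (τ : ∀ x y : X, Path x y → G) (S : Set X) (s : X → G) : Prop :=
  ∀ x y (γ : Path x y), In γ S → s y = s x * τ x y γ

/-- `τ` is trivial on `S` -/
def Triv (τ : ∀ x y : X, Path x y → G) (S : Set X) : Prop := ∃ s, Par τ S s

/-- `τ` separates homotopy classes of paths in `T` -/
def Faith (τ : ∀ x y : X, Path x y → G) (T : Set X) : Prop :=
  ∀ x y (γ δ : Path x y), In γ T → In δ T → τ x y γ = τ x y δ → HIn T γ δ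

/-- every holonomy on `S` with values in a commutative group is trivial -/
def Perf (S : Set X) : Prop :=
  ∀ (A : Type) [CommGroup A] (τ : ∀ x y : X, Path x y → A), Hol S τ → Triv τ S

/-- `τ'` is the pull-back of `τ` by `f` on `S` -/
def Pull {Y : Type} [TopologicalSpace Y] (f : Y → X) (S : Set Y) (τ : ∀ x y : X, Path x y → G)
    (τ' : ∀ x y : Y, Path x y → G) : Prop :=
  ∀ x y (γ : Path x y), In γ S → ∀ a b (δ : Path a b), (∀ t, δ t = f (γ t)) → τ' x y γ = τ a b δ

/-- `f` is constant near each point of `S`, within `S` -/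
def LC {A : Type} (f : X → A) (S : Set X) : Prop := ∀ x ∈ S, ∀ᶠ y in 𝓝[S] x, f y = f x

/-- the closed set `C` has one end: off a compact set, points of `C` are joined in `C` minus a
given compact set -/
def OneEnd (C : Set X) : Prop :=
  ∀ K, IsCompact K → ∃ K', IsCompact K' ∧ ∀ x ∈ C \ K', ∀ y ∈ C \ K', JoinedIn (C \ K) x y

end Defs

/-! ### Row HOL: holonomy calculus -/

/-- locality: a section that is parallel near each point is parallel -/
def LocalStmt : Prop :=
  ∀ (X G : Type) [TopologicalSpace X] [Group G] (T S : Set X) (τ : ∀ x y : X, Path x y → G)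
    (s : X → G), Hol T τ → S ⊆ T → (∀ x ∈ S, ∃ V ∈ 𝓝 x, Par τ (S ∩ V) s) → Par τ S s

/-- pull-back -/
def PullStmt : Prop :=
  ∀ (X Y G : Type) [TopologicalSpace X] [TopologicalSpace Y] [Group G] (T : Set X) (S : Set Y)
    (τ : ∀ x y : X, Path x y → G) (f : Y → X), Hol T τ → ContinuousOn f S → MapsTo f S T →
    ∃ τ', Hol S τ' ∧ Pull f S τ τ' ∧
      ∀ S' ⊆ S, ∀ T' s, MapsTo f S' T' → Par τ T' s → Par τ' S' fun y => s (f y)

/-- thin sets and trivial holonomy -/
def ThinStmt : Prop :=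
  ∀ (X : Type) [TopologicalSpace X] (S T : Set X), S ⊆ T →
    (Thin S T ↔ ∀ (G : Type) [Group G] (τ : ∀ x y : X, Path x y → G), Hol T τ → Triv τ S)

/-- a faithful holonomy exists on every set -/
def TautStmt : Prop :=
  ∀ (X : Type) [TopologicalSpace X] (T : Set X),
    ∃ (G : Type) (_ : Group G) (τ : ∀ x y : X, Path x y → G), Hol T τ ∧ Faith τ T

/-- free homotopies: the four sides of a square -/
def SquareStmt : Prop :=
  ∀ (X G : Type) [TopologicalSpace X] [Group G] (T : Set X) (τ : ∀ x y : X, Path x y → G)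
    (H : I × I → X) (a b c d : X) (bo : Path a b) (ri : Path b d) (le : Path a c) (up : Path c d),
    Hol T τ → Continuous H → (∀ p, H p ∈ T) → (∀ t, bo t = H (t, 0)) → (∀ t, ri t = H (1, t)) →
    (∀ t, le t = H (0, t)) → (∀ t, up t = H (t, 1)) → τ a b bo * τ b d ri = τ a c le * τ c d up

/-- deformations: triviality on `S'` gives triviality on a set `S` that deforms into `S'` -/
def DeformStmt : Prop :=
  ∀ (X G : Type) [TopologicalSpace X] [Group G] (T S S' : Set X) (τ : ∀ x y : X, Path x y → G)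
    (H : ℝ × X → X), Hol T τ → ContinuousOn H (Icc 0 1 ×ˢ S) → MapsTo H (Icc 0 1 ×ˢ S) T →
    (∀ x ∈ S, H (0, x) = x) → (∀ x ∈ S, H (1, x) ∈ S') → Triv τ S' → Triv τ S

/-- a locally constant cocycle on a relatively open cover of `T` defines a holonomy -/
def CechStmt : Prop :=
  ∀ (X G ι : Type) [TopologicalSpace X] [Group G] (T : Set X) (U : ι → Set X)
    (g : ι → ι → X → G), (∀ i, IsOpen (U i)) → (∀ x ∈ T, ∃ i, x ∈ U i) →
    (∀ i j, LC (g i j) (T ∩ U i ∩ U j)) →
    (∀ i j k, ∀ x ∈ T ∩ U i ∩ U j ∩ U k, g i j x * g j k x = g i k x) →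
    ∃ (τ : ∀ x y : X, Path x y → G) (s : ι → X → G), Hol T τ ∧ (∀ i, Par τ (T ∩ U i) (s i)) ∧
      ∀ i j, ∀ x ∈ T ∩ U i ∩ U j, s i x = g i j x * s j x

/-- two parallel sections differ by a locally constant function; a locally constant multiple of
a parallel section is parallel -/
def DiffStmt : Prop :=
  ∀ (X G : Type) [TopologicalSpace X] [Group G] (S : Set X) (τ : ∀ x y : X, Path x y → G)
    (s s' : X → G), Par τ S s →
    (Par τ S s' → ∀ x y, JoinedIn S x y → s' y * (s y)⁻¹ = s' x * (s x)⁻¹) ∧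
    (LC (fun x => s' x * (s x)⁻¹) S → Par τ S s') ∧
    (LocallyPathConnectedSpace X → IsOpen S → Par τ S s' → LC (fun x => s' x * (s x)⁻¹) S)

/-- gluing: holonomies on open sets, with parallel comparison on overlaps; here in the form used
most: `τ` on `T`, open sets `V i` pairwise disjoint, with sections `s i` on `T ∩ V i` -/
def ExtStmt : Prop :=
  ∀ (X G ι : Type) [TopologicalSpace X] [LocallyPathConnectedSpace X] [Group G] (T : Set X)
    (V : ι → Set X) (τ : ∀ x y : X, Path x y → G) (s : ι → X → G), IsOpen T →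
    (∀ i, IsOpen (V i)) → Pairwise (fun i j => Disjoint (V i) (V j)) → Hol T τ →
    (∀ x ∈ T, ∃ O ∈ 𝓝 x, Triv τ O) → (∀ i, Par τ (T ∩ V i) (s i)) →
    ∃ (τ' : ∀ x y : X, Path x y → G) (s' : ι → X → G), Hol (T ∪ ⋃ i, V i) τ' ∧
      (∀ x y γ, In γ T → τ' x y γ = τ x y γ) ∧
      ∀ i, Par τ' (V i) (s' i) ∧ EqOn (s' i) (s i) (T ∩ V i)

/-- extension over a set `K` that does not separate locally (local form) -/
def Ext2Stmt : Prop :=
  ∀ (X G : Type) [TopologicalSpace X] [LocallyPathConnectedSpace X] [Group G] (U K : Set X)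
    (τ : ∀ x y : X, Path x y → G), IsOpen U → IsOpen (U \ K) →
    (∀ x ∈ U ∩ K, ∀ O ∈ 𝓝 x, ∃ V, IsOpen V ∧ x ∈ V ∧ V ⊆ O ∧ IsPathConnected (V \ K)) →
    (Hol U τ → (∀ x ∈ U, ∃ O ∈ 𝓝 x, Triv τ O) → ∀ s, Par τ (U \ K) s →
      ∃ s', Par τ U s' ∧ EqOn s' s (U \ K)) ∧
    (Hol (U \ K) τ → (∀ x ∈ U, ∃ O ∈ 𝓝 x, Triv τ (O \ K)) →
      ∃ τ' : ∀ x y : X, Path x y → G, Hol U τ' ∧ ∀ x y γ, In γ (U \ K) → τ' x y γ = τ x y γ)

/-- standard simply connected sets -/
def StdStmt : Prop :=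
  (∀ (E : Type) [NormedAddCommGroup E] [NormedSpace ℝ E] (S : Set E) (x : E), x ∈ S →
    StarConvex ℝ x S → SC S) ∧
  (∀ (E : Type) [NormedAddCommGroup E] [NormedSpace ℝ E] [FiniteDimensional ℝ E],
    (2 ≤ Module.finrank ℝ E → IsPathConnected {v : E | v ≠ 0}) ∧
    (3 ≤ Module.finrank ℝ E → SC {v : E | v ≠ 0})) ∧
  (∀ (X Y : Type) [TopologicalSpace X] [TopologicalSpace Y] (S T : Set X) (S' T' : Set Y),
    Thin S T → Thin S' T' → Thin (S ×ˢ S') (T ×ˢ T')) ∧
  (∀ (X Y : Type) [TopologicalSpace X] [TopologicalSpace Y] (S T : Set X) (T' : Set Y) (f : X → Y)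
    (g : Y → X), S ⊆ T → ContinuousOn f T → MapsTo f T T' → ContinuousOn g (f '' S) →
    (∀ x ∈ S, g (f x) = x) → Thin S T → Thin (f '' S) T') ∧
  ∀ (X : Type) [TopologicalSpace X] (S : Set X), SC S → Perf S

/-! ### Row COV: covering spaces -/

/-- the covering space defined by a locally trivial holonomy -/
def CovStmt : Prop :=
  ∀ (X G : Type) [TopologicalSpace X] [LocallyPathConnectedSpace X] [Group G]
    (τ : ∀ x y : X, Path x y → G), Hol univ τ → (∀ x : X, ∃ O ∈ 𝓝 x, Triv τ O) →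
    ∃ (Y : Type) (_ : TopologicalSpace Y) (e : X × G ≃ Y),
      IsCoveringMap (fun y => (e.symm y).1) ∧
      (∀ V s g, IsOpen V → Par τ V s → ContinuousOn (fun x => e (x, g * s x)) V) ∧
      (∀ g, Continuous fun y => e ((e.symm y).1, g * (e.symm y).2)) ∧
      (∀ a b (γ : Path a b) x y (δ : Path x y), (∀ t, δ t = (e.symm (γ t)).1) →
        (e.symm b).2 = (e.symm a).2 * τ x y δ) ∧
      (T2Space X → T2Space Y) ∧
      (SecondCountableTopology X → Countable G → SecondCountableTopology Y) ∧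
      ((∀ x g, ∃ γ : Path x x, τ x x γ = g) → PathConnectedSpace X → PathConnectedSpace Y) ∧
      (Faith τ univ → Thin (univ : Set Y) univ)

/-- a faithful holonomy onto a countable group (the fundamental group) -/
def UnivStmt : Prop :=
  ∀ (X : Type) [TopologicalSpace X] [LocallyPathConnectedSpace X] [PathConnectedSpace X]
    [SecondCountableTopology X], (∀ x : X, ∃ O ∈ 𝓝 x, Thin O univ) →
    ∃ (G : Type) (_ : Group G) (_ : Countable G) (τ : ∀ x y : X, Path x y → G),
      Hol univ τ ∧ Faith τ univ ∧ ∀ x g, ∃ γ : Path x x, τ x x γ = g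

/-- a connected space with a free proper cocompact action of `ℤ × ℤ` has one end -/
def OneEndStmt : Prop :=
  ∀ (X : Type) [TopologicalSpace X] [T2Space X] [LocallyCompactSpace X] (C D : Set X)
    (a : ℤ × ℤ → X → X), (∀ n, Continuous (a n)) → (∀ x, a 0 x = x) →
    (∀ m n x, a (m + n) x = a m (a n x)) → IsClosed C → IsPathConnected C →
    (∀ x ∈ C, ∀ O ∈ 𝓝 x, ∃ V ∈ 𝓝 x, ∀ y ∈ C ∩ V, JoinedIn (C ∩ O) x y) →
    (∀ n, MapsTo (a n) C C) → IsCompact D → (∀ x ∈ C, ∃ n, a n x ∈ D) →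
    (∀ K, IsCompact K → {n | (a n '' K ∩ K).Nonempty}.Finite) → OneEnd C

end Pool.Agent.MP_e1dc65_gt

end
end MrgPart1

-- marker of a merged file
example : 731051 + 656225 = 731051 + 656225 := rfl
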