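import Mathlib.Analysis.Quaternion
import Mathlib.Analysis.InnerProductSpace.PiL2
import Mathlib.LinearAlgebra.Matrix.Trace
import Mathlib.Topology.Instances.Matrix
import Mathlib.Geometry.Manifold.Instances.Real
import Pool.Agent.MP_c8d41b_gt.gf.Calc
import Pool.Agent.MP_e1dc65_gt.Top

/-! PROJECT HC: shared definitions (fields, flows, forms, integrals, coframes, spin structures,
connections) and the statements of the smooth toolkit. -/

open scoped ContDiff Manifold Topology Quaternion Matrix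
open Set Filter Function MeasureTheory Module Pool.Agent.MP_c8d41b_gt.GF

noncomputable section

namespace Pool.Agent.MP_e1dc65_gt

abbrev E4 : Type := EuclideanSpace ℝ (Fin 4)
abbrev Rn (n : ℕ) : Type := Fin n → ℝ
abbrev M5 : Type := Matrix (Fin 5) (Fin 5) ℝ

/-- square of the Euclidean norm -/
def nsq {n : ℕ} (v : Rn n) : ℝ := ∑ i, v i ^ 2

/-- `X × ℝ` -/
abbrev Mf.cyl {E : Type} [NormedAddCommGroup E] [NormedSpace ℝ E] (X : Mf E) : Mf (E × ℝ) :=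
  X.prod (vs ℝ)

section Defs
variable {E E' V : Type} [NormedAddCommGroup E] [NormedSpace ℝ E] [FiniteDimensional ℝ E]
  [NormedAddCommGroup E'] [NormedSpace ℝ E'] [FiniteDimensional ℝ E']
  [NormedAddCommGroup V] [NormedSpace ℝ V]

/-! ### Vector fields and flows -/

/-- the vector field `v` is smooth at `x` -/
def VfAt (X : Mf E) (v : X → E) (x : X) : Prop :=
  ContDiffAt ℝ ∞ (fun y => Df X (vs E) (ch X x) ((ch X x).symm y) (v ((ch X x).symm y))) (ch X x x)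

/-- `c` is an integral curve of `v` at time `t` -/
def IC (X : Mf E) (v : X → E) (c : ℝ → X) (t : ℝ) : Prop :=
  MDifferentiableAt 𝓘(ℝ, ℝ) 𝓘(ℝ, E) c t ∧ Df (vs ℝ) X c t 1 = v (c t)

/-- smooth global flow with uniqueness -/
structure IsFlow (X : Mf E) (v : X → E) (φ : ℝ → X → X) : Prop where
  sm : Sm X.cyl X (fun p => φ p.2 p.1) univ
  zero : ∀ x, φ 0 x = x
  add : ∀ s t x, φ (s + t) x = φ s (φ t x)
  der : ∀ x t, IC X v (fun t => φ t x) t
  uniq : ∀ (c : ℝ → X) (a b : ℝ), a ≤ b → ContinuousOn c (Icc a b) →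
    (∀ t ∈ Ioo a b, IC X v c t) → c b = φ (b - a) (c a)

/-! ### Differential forms -/

/-- pull-back of a form -/
def pbM (X : Mf E) (Y : Mf E') (f : X → Y) (α : Y → Lam E') (x : X) : Lam E :=
  mp (Df X Y f x) (α (f x))

/-- the form `α` is smooth at `x` -/
def FmAt (X : Mf E) (α : X → Lam E) (x : X) : Prop :=
  ContDiffAt ℝ ∞ (pbM (vs E) X (ch X x).symm α) (ch X x x)

/-- exterior derivative -/
def dM (X : Mf E) (α : X → Lam E) (x : X) : Lam E := dd (pbM (vs E) X (ch X x).symm α) (ch X x x)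

/-- smooth `k`-form on `U` -/
def Fm (X : Mf E) (k : ℕ) (α : X → Lam E) (U : Set X) : Prop :=
  ∀ x ∈ U, FmAt X α x ∧ α x ∈ dg E k

/-- closed smooth `k`-form on `U` -/
def Cl (X : Mf E) (k : ℕ) (α : X → Lam E) (U : Set X) : Prop :=
  Fm X k α U ∧ ∀ x ∈ U, dM X α x = 0

/-- the de Rham group of `U` in degree `k + 1` vanishes -/
def HZ (X : Mf E) (k : ℕ) (U : Set X) : Prop :=
  ∀ α, Cl X (k + 1) α U → ∃ β, Fm X k β U ∧ ∀ x ∈ U, dM X β x = α x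

/-- an orientation of `U`: a nowhere vanishing smooth form of top degree `N` -/
structure Ori (X : Mf E) (N : ℕ) (o : X → Lam E) (U : Set X) : Prop where
  dim : finrank ℝ E = N
  fm : Fm X N o U
  ne : ∀ x ∈ U, o x ≠ 0

/-- the coefficient of the top-degree part of `a` with respect to `o` -/
def cf (o a : Lam E) : ℝ := ev (List.ofFn (finBasis ℝ E)) a / ev (List.ofFn (finBasis ℝ E)) o

/-- `μ` is the measure given by the density `|o|` -/
def IsVol (X : Mf E) [MeasurableSpace X] (o : X → Lam E) (μ : Measure X) : Prop :=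
  ∀ (N : ℕ) (φ : Rn N → X) (W : Set (Rn N)), OE (vs (Rn N)) X φ W → ∀ f : X → ENNReal,
    Measurable f → ∫⁻ x in φ '' W, f x ∂μ = ∫⁻ y in W, f (φ y) *
      ENNReal.ofReal |ev (List.ofFn (Pi.basisFun ℝ (Fin N))) (pbM (vs (Rn N)) X φ o y)|

open Classical in
/-- the measure of the density `|o|` -/
def vol (X : Mf E) [MeasurableSpace X] (o : X → Lam E) : Measure X :=
  if h : ∃ μ, IsVol X o μ then h.choose else 0

/-- the integral of the top-degree part of `α` over `X` oriented by `o` -/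
def intM (X : Mf E) (o α : X → Lam E) : ℝ :=
  letI : MeasurableSpace X := borel X
  ∫ x, cf (o x) (α x) ∂vol X o

/-! ### Coframes -/

/-- the `V`-valued one-form `Θ` is `C^n` at `x` -/
def CfAt (X : Mf E) (n : WithTop ℕ∞) (Θ : X → E →L[ℝ] V) (x : X) : Prop :=
  ContDiffAt ℝ n (fun y => (Θ ((ch X x).symm y)).comp (Df (vs E) X (ch X x).symm y)) (ch X x x)

/-- `C^n` coframe on `U` -/
def Cof (X : Mf E) (n : WithTop ℕ∞) (Θ : X → E →L[ℝ] V) (U : Set X) : Prop :=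
  ∀ x ∈ U, CfAt X n Θ x ∧ (Θ x).IsInvertible

/-- the coframe `Θ` is positive for the orientation `o`; `b` is the basis of the target -/
def PosB {N : ℕ} (b : Fin N → V) (o : Lam E) (Θ : E →L[ℝ] V) : Prop :=
  0 < ev (List.ofFn fun k => Θ.inverse (b k)) o

/-- the matrix taking the coframe `Θ'` to the coframe `Θ` -/
def tm (Θ Θ' : E →L[ℝ] Rn 5) : M5 := LinearMap.toMatrix' (Θ.comp Θ'.inverse).toLinearMap

/-- an atlas of `C^n` coframes of a 5-manifold over the open set `U` -/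
structure Atl (X : Mf E) (n : WithTop ℕ∞) (U : Set X) where
  ι : Type
  W : ι → Set X
  Θ : ι → X → E →L[ℝ] Rn 5
  op : ∀ i, IsOpen (W i)
  sub : ∀ i, W i ⊆ U
  cov : ∀ x ∈ U, ∃ i, x ∈ W i
  cof : ∀ i, Cof X n (Θ i) (W i)

/-- the atlas contains the chart `(W₀, Θ₀)` -/
def Atl.Has {X : Mf E} {n : WithTop ℕ∞} {U : Set X} (a : Atl X n U) (W₀ : Set X)
    (Θ₀ : X → E →L[ℝ] Rn 5) (i : a.ι) : Prop := a.W i = W₀ ∧ EqOn (a.Θ i) Θ₀ W₀

end Defs

/-- `ℍ × ℝ` as `ℝ⁵` -/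
def emb (v : ℍ) (t : ℝ) : Rn 5 := ![v.re, v.imI, v.imJ, v.imK, t]

/-- the basis `1, i, j, k` -/
def hb : Fin 4 → ℍ := ![⟨1, 0, 0, 0⟩, ⟨0, 1, 0, 0⟩, ⟨0, 0, 1, 0⟩, ⟨0, 0, 0, 1⟩]

/-- the non-trivial double cover of `GL₅⁺(ℝ)` -/
structure SpinCover where
  G : Type
  [grp : Group G]
  [top : TopologicalSpace G]
  [tg : IsTopologicalGroup G]
  π : G →* M5
  cont : Continuous π
  pos : ∀ g, 0 < (π g).det
  ε : G
  ε_ne : ε ≠ 1
  ker : ∀ g, π g = 1 ↔ g = 1 ∨ g = ε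
  disc : ∃ O, IsOpen O ∧ 1 ∈ O ∧ ε ∉ O
  sec : ∀ A : M5, 0 < A.det → ∃ O ∈ 𝓝 A, ∃ s : M5 → G, ContinuousOn s O ∧ ∀ B ∈ O, π (s B) = B
  j : ℍ × ℍ → G
  j_cont : ContinuousOn j {z | ‖z.1‖ = 1 ∧ ‖z.2‖ = 1}
  j_mul : ∀ p q p' q', ‖p‖ = 1 → ‖q‖ = 1 → ‖p'‖ = 1 → ‖q'‖ = 1 →
    j (p * p', q * q') = j (p, q) * j (p', q')
  j_π : ∀ p q, ‖p‖ = 1 → ‖q‖ = 1 → ∀ v t, π (j (p, q)) *ᵥ emb v t = emb (p * v * star q) t
  j_neg : j (-1, -1) = ε

attribute [instance] SpinCover.grp SpinCover.top SpinCover.tg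

section Defs2
variable {E : Type} [NormedAddCommGroup E] [NormedSpace ℝ E] [FiniteDimensional ℝ E]

/-- a spin structure on the open set `U` of a 5-manifold -/
structure Spin (C : SpinCover) (X : Mf E) (U : Set X) extends Atl X 0 U where
  g : ι → ι → X → C.G
  cont : ∀ i j, ContinuousOn (g i j) (W i ∩ W j)
  proj : ∀ i j, ∀ x ∈ W i ∩ W j, C.π (g i j x) = tm (Θ i x) (Θ j x)
  coc : ∀ i j k, ∀ x ∈ W i ∩ W j ∩ W k, g i j x * g j k x = g i k x

/-- a real matrix as a matrix of forms -/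
def mF (A : M5) : Matrix (Fin 5) (Fin 5) (Lam E) := A.map (algebraMap ℝ (Lam E))

/-- exterior derivative of a matrix of forms -/
def dMat (X : Mf E) (A : X → Matrix (Fin 5) (Fin 5) (Lam E)) (x : X) :
    Matrix (Fin 5) (Fin 5) (Lam E) := Matrix.of fun a b => dM X (fun y => A y a b) x

/-- curvature -/
def curv (X : Mf E) (A : X → Matrix (Fin 5) (Fin 5) (Lam E)) (x : X) :
    Matrix (Fin 5) (Fin 5) (Lam E) := dMat X A x + A x * A x

/-- a connection on the tangent bundle over the open set `U` of a 5-manifold -/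
structure Con (X : Mf E) (U : Set X) extends Atl X ∞ U where
  A : ι → X → Matrix (Fin 5) (Fin 5) (Lam E)
  fm : ∀ i a b, Fm X 1 (fun x => A i x a b) (W i)
  gauge : ∀ i j, ∀ x ∈ W i ∩ W j, dMat X (fun y => mF (tm (Θ i y) (Θ j y))) x +
    A i x * mF (tm (Θ i x) (Θ j x)) = mF (tm (Θ i x) (Θ j x)) * A j x

/-- `Ω` is the form `tr F²` of the connection -/
def Con.Tr {X : Mf E} {U : Set X} (c : Con X U) (Ω : X → Lam E) : Prop :=
  ∀ i, ∀ x ∈ c.W i, Ω x = (curv X (c.A i) x * curv X (c.A i) x).trace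

/-- `w` is the form `tr F²` of a connection on the stable tangent bundle of the 4-manifold `X` -/
def Pont (X : Mf E) (w : X → Lam E) : Prop :=
  ∃ (c : Con X.cyl univ) (Ω : X.cyl → Lam (E × ℝ)), c.Tr Ω ∧
    ∀ x, w x = pbM X X.cyl (fun x => (x, 0)) Ω x

end Defs2

/-! ### The smooth toolkit -/

/-- row ETALE: quotient of a countable family of open pieces by an etale equivalence relation -/
def EtaleStmt : Prop :=
  ∀ (E E' ι : Type) [NormedAddCommGroup E] [NormedSpace ℝ E] [FiniteDimensional ℝ E]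
    [NormedAddCommGroup E'] [NormedSpace ℝ E'] [FiniteDimensional ℝ E'] [Countable ι]
    (X : ι → Mf E) (O : ∀ i, Set (X i)) (R : ∀ i j, X i → X j → Prop),
    finrank ℝ E = finrank ℝ E' → (∀ i, IsOpen (O i)) → (∃ i, (O i).Nonempty) →
    (∀ i, ∀ x ∈ O i, R i i x x) → (∀ i j, ∀ x ∈ O i, ∀ y ∈ O j, R i j x y → R j i y x) →
    (∀ i j k, ∀ x ∈ O i, ∀ y ∈ O j, ∀ z ∈ O k, R i j x y → R j k y z → R i k x z) →
    (∀ i j, ∀ x ∈ O i, ∀ y ∈ O j, R i j x y →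
      ∃ f, LDAt (X i) (X j) f x ∧ f x = y ∧ ∀ᶠ z in 𝓝 x, R i j z (f z)) →
    (∀ i, ∀ x ∈ O i, ∀ᶠ p in 𝓝 (x, x), R i i p.1 p.2 → p.1 = p.2) →
    (∀ i j, ∀ x ∈ O i, ∀ y ∈ O j, ¬R i j x y → ∀ᶠ p in 𝓝 (x, y), ¬R i j p.1 p.2) →
    ∃ (Z : Mf E') (e : ∀ i, X i → Z), (∀ i, ∀ x ∈ O i, LDAt (X i) Z (e i) x) ∧
      (∀ z, ∃ i, ∃ x ∈ O i, e i x = z) ∧
      ∀ i j, ∀ x ∈ O i, ∀ y ∈ O j, e i x = e j y ↔ R i j x y

/-- row ETALE: gluing two open pieces along a common open piece `D` of `C` -/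
def GlueStmt : Prop :=
  ∀ (E E₁ E₂ E₃ : Type) [NormedAddCommGroup E] [NormedSpace ℝ E] [FiniteDimensional ℝ E]
    [NormedAddCommGroup E₁] [NormedSpace ℝ E₁] [FiniteDimensional ℝ E₁]
    [NormedAddCommGroup E₂] [NormedSpace ℝ E₂] [FiniteDimensional ℝ E₂]
    [NormedAddCommGroup E₃] [NormedSpace ℝ E₃] [FiniteDimensional ℝ E₃]
    (X : Mf E₁) (Y : Mf E₂) (C : Mf E₃) (U : Set X) (W : Set Y) (D : Set C) (a : C → X) (b : C → Y),
    finrank ℝ E₁ = finrank ℝ E → finrank ℝ E₂ = finrank ℝ E → IsOpen U → IsOpen W →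
    (U.Nonempty ∨ W.Nonempty) → OE C X a D → OE C Y b D → MapsTo a D U → MapsTo b D W →
    (∀ x ∈ U, ∀ y ∈ W, (x, y) ∈ closure ((fun c => (a c, b c)) '' D) →
      ∃ c ∈ D, a c = x ∧ b c = y) →
    ∃ (Z : Mf E) (e : X → Z) (e' : Y → Z), OE X Z e U ∧ OE Y Z e' W ∧ e '' U ∪ e' '' W = univ ∧
      ∀ x ∈ U, ∀ y ∈ W, e x = e' y ↔ ∃ c ∈ D, a c = x ∧ b c = y

/-- row ETALE: change of model, and pull-back of the smooth structure by a local homeomorphism -/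
def PullMfStmt : Prop :=
  ∀ (E E' : Type) [NormedAddCommGroup E] [NormedSpace ℝ E] [FiniteDimensional ℝ E]
    [NormedAddCommGroup E'] [NormedSpace ℝ E'] [FiniteDimensional ℝ E'] (X : Mf E) (Y : Type)
    [TopologicalSpace Y] [T2Space Y] [SecondCountableTopology Y] [Nonempty Y] (p : Y → X),
    finrank ℝ E = finrank ℝ E' → IsLocalHomeomorph p →
    ∃ (c : ChartedSpace E' Y) (h : IsManifold 𝓘(ℝ, E') ∞ Y),
      ∀ y, LDAt ({ carrier := Y, chart := c, smooth := h } : Mf E') X p y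

/-- row BUMP: cut-off functions and partitions of unity -/
def BumpMStmt : Prop :=
  ∀ (E : Type) [NormedAddCommGroup E] [NormedSpace ℝ E] [FiniteDimensional ℝ E] (X : Mf E),
    (∀ K U : Set X, IsClosed K → IsOpen U → K ⊆ U → ∃ χ : X → ℝ, Sm X (vs ℝ) χ univ ∧
      (∀ x, χ x ∈ Icc (0 : ℝ) 1) ∧ (∀ᶠ x in 𝓝ˢ K, χ x = 1) ∧ tsupport χ ⊆ U ∧
      (IsCompact K → IsCompact (tsupport χ))) ∧
    ∀ (ι : Type) (U : ι → Set X) (S : Set X), IsOpen S → (∀ i, IsOpen (U i)) →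
      (∀ x ∈ S, ∃ i, x ∈ U i) → ∃ ρ : ι → X → ℝ, (∀ i, Sm X (vs ℝ) (ρ i) S) ∧
      (∀ i x, 0 ≤ ρ i x) ∧ (∀ i, ∀ x ∈ S, x ∉ U i → ρ i =ᶠ[𝓝 x] 0) ∧
      (∀ x ∈ S, ∃ (O : Set X) (s : Finset ι), O ∈ 𝓝 x ∧ (∀ i ∉ s, ∀ y ∈ O, ρ i y = 0)) ∧
      ∀ x ∈ S, ∑ᶠ i, ρ i x = 1

/-- row FLOW: fields whose integral curves do not escape in finite time have global flows; this
holds for fields with compact support -/
def FlowMStmt : Prop :=
  ∀ (E : Type) [NormedAddCommGroup E] [NormedSpace ℝ E] [FiniteDimensional ℝ E] (X : Mf E)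
    (v : X → E), (∀ x, VfAt X v x) →
    ((∃ K, IsCompact K ∧ ∀ x ∉ K, v x = 0) ∨ ∀ (x : X) (T : ℝ), ∃ K, IsCompact K ∧
      ∀ (c : ℝ → X) (a b : ℝ), -T ≤ a → a ≤ 0 → 0 ≤ b → b ≤ T → c 0 = x →
        (∀ t ∈ Icc a b, IC X v c t) → MapsTo c (Icc a b) K) → ∃ φ, IsFlow X v φ

/-- row FIELD: fields with values in convex sets -/
def FieldStmt : Prop :=
  ∀ (E : Type) [NormedAddCommGroup E] [NormedSpace ℝ E] [FiniteDimensional ℝ E] (X : Mf E)
    (S : Set X) (C : X → Set E), IsOpen S → (∀ x ∈ S, Convex ℝ (C x)) →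
    (∀ x ∈ S, ∃ (O : Set X) (w : X → E), O ∈ 𝓝 x ∧ ∀ y ∈ O, VfAt X w y ∧ w y ∈ C y) →
    ∃ v : X → E, ∀ x ∈ S, VfAt X v x ∧ v x ∈ C x

/-- `ι : Z → X` parametrises the regular level `K` of `f` -/
structure Level {E E' : Type} [NormedAddCommGroup E] [NormedSpace ℝ E] [NormedAddCommGroup E']
    [NormedSpace ℝ E'] (X : Mf E) (f : X → ℝ) (K : Set X) (Z : Mf E') (ι : Z → X) : Prop where
  sm : Sm Z X ι univ
  emb : Topology.IsEmbedding ι
  range : range ι = K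
  inj : ∀ z, Injective (Df Z X ι z)
  tan : ∀ z v, v ∈ Set.range (Df Z X ι z) ↔ Df X (vs ℝ) f (ι z) v = 0
  lift : ∀ (E'' : Type) [NormedAddCommGroup E''] [NormedSpace ℝ E''] (Y : Mf E'') (g : Y → Z)
    (y : Y), SmAt Y X (fun y => ι (g y)) y → SmAt Y Z g y

/-- row LEVEL: regular levels are manifolds; compact ones have product neighbourhoods -/
def LevelStmt : Prop :=
  ∀ (E E' : Type) [NormedAddCommGroup E] [NormedSpace ℝ E] [FiniteDimensional ℝ E]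
    [NormedAddCommGroup E'] [NormedSpace ℝ E'] [FiniteDimensional ℝ E'] (X : Mf E) (f : X → ℝ)
    (U : Set X) (c : ℝ), finrank ℝ E' + 1 = finrank ℝ E → IsOpen U → Sm X (vs ℝ) f U →
    (∀ x ∈ U, f x = c → Df X (vs ℝ) f x ≠ 0) → (U ∩ f ⁻¹' {c}).Nonempty →
    ∃ (Z : Mf E') (ι : Z → X), Level X f (U ∩ f ⁻¹' {c}) Z ι ∧
      (IsCompact (U ∩ f ⁻¹' {c}) → ∃ (δ : ℝ) (ν : Z.cyl → X), 0 < δ ∧
        OE Z.cyl X ν (univ ×ˢ Ioo (-δ) δ) ∧ (∀ z, ν (z, 0) = ι z) ∧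
        ∀ z, ∀ t ∈ Ioo (-δ) δ, ν (z, t) ∈ U ∧ f (ν (z, t)) = c + t)

/-- row INJ: a local diffeomorphism that is injective on a compact set is injective near it -/
def InjStmt : Prop :=
  ∀ (E E' : Type) [NormedAddCommGroup E] [NormedSpace ℝ E] [FiniteDimensional ℝ E]
    [NormedAddCommGroup E'] [NormedSpace ℝ E'] [FiniteDimensional ℝ E'] (X : Mf E) (Y : Mf E')
    (f : X → Y) (K : Set X), IsCompact K → (∀ x ∈ K, LDAt X Y f x) → InjOn f K →
    ∃ U, K ⊆ U ∧ OE X Y f U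

/-- row SMOOTH: smoothing of continuous maps near a compact set (for the relative form apply it
to `K` minus the open set where `f` is smooth, and `U` minus the closed set to be kept) -/
def SmoothStmt : Prop :=
  ∀ (E E' : Type) [NormedAddCommGroup E] [NormedSpace ℝ E] [FiniteDimensional ℝ E]
    [NormedAddCommGroup E'] [NormedSpace ℝ E'] [FiniteDimensional ℝ E'] (Y : Mf E') (X : Mf E)
    (f : Y → X) (K U : Set Y) (O : Set (Y × X)), Continuous f → IsCompact K →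
    IsOpen U → K ⊆ U → IsOpen O → (∀ y, (y, f y) ∈ O) →
    ∃ H : Y × ℝ → X, Continuous H ∧ (∀ y, H (y, 0) = f y) ∧
      (∃ V, IsOpen V ∧ K ⊆ V ∧ Sm Y X (fun y => H (y, 1)) V) ∧
      (∀ y t, (y, H (y, t)) ∈ O) ∧ (∀ y ∉ U, ∀ t, H (y, t) = f y) ∧
      ∀ y, SmAt Y X f y → SmAt Y X (fun y => H (y, 1)) y

/-- row REG: a function can be perturbed near a compact set so that a given level is regular -/
def RegStmt : Prop :=
  ∀ (E : Type) [NormedAddCommGroup E] [NormedSpace ℝ E] [FiniteDimensional ℝ E] (X : Mf E)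
    (f : X → ℝ) (K U : Set X) (a b δ : ℝ), IsCompact K → IsOpen U → K ⊆ U → Sm X (vs ℝ) f U →
    a < b → 0 < δ → (∀ x ∈ U \ K, f x ∈ Icc a b → Df X (vs ℝ) f x ≠ 0) →
    ∃ (g : X → ℝ) (c : ℝ) (K' : Set X), IsCompact K' ∧ K' ⊆ U ∧ Sm X (vs ℝ) g univ ∧
      (∀ x ∉ K', g x = 0) ∧ (∀ x, |g x| ≤ δ) ∧ c ∈ Ioo a b ∧
      ∀ x ∈ U, f x + g x = c → Df X (vs ℝ) (fun x => f x + g x) x ≠ 0

/-- row SPINCOVER -/
def SpinCoverStmt : Prop := Nonempty SpinCover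

/-- row SO4: orientation preserving isometries of `ℍ` -/
def So4Stmt : Prop :=
  ∀ L : ℍ →L[ℝ] ℍ, (∀ v, ‖L v‖ = ‖v‖) → 0 < L.det →
    ∃ p q : ℍ, ‖p‖ = 1 ∧ ‖q‖ = 1 ∧ ∀ v, L v = p * v * star q

/-- row METRIC: an oriented orthonormal atlas containing a given coframe near a closed set -/
def MetricStmt : Prop :=
  ∀ (E : Type) [NormedAddCommGroup E] [NormedSpace ℝ E] [FiniteDimensional ℝ E] (X : Mf E)
    (o : X → Lam E) (S W₀ : Set X) (θ₀ : X → E →L[ℝ] ℍ), Ori X 4 o univ → IsClosed S →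
    IsOpen W₀ → S ⊆ W₀ → Cof X ∞ θ₀ W₀ → (∀ x ∈ W₀, PosB hb (o x) (θ₀ x)) →
    ∃ (W : Option X → Set X) (θ : Option X → X → E →L[ℝ] ℍ), (∀ i, IsOpen (W i)) ∧
      (∀ x, x ∈ W (some x)) ∧ S ⊆ W none ∧ W none ⊆ W₀ ∧ θ none = θ₀ ∧
      (∀ i, Cof X ∞ (θ i) (W i)) ∧ (∀ i, ∀ x ∈ W i, PosB hb (o x) (θ i x)) ∧
      ∀ i j, ∀ x ∈ W i ∩ W j, ∀ v, ‖θ i x v‖ = ‖θ j x v‖

/-- row CW: Chern-Weil -/
def CWStmt : Prop :=
  ∀ (E : Type) [NormedAddCommGroup E] [NormedSpace ℝ E] [FiniteDimensional ℝ E] (X : Mf E)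
    [CompactSpace X] (o w w' : X → Lam E), Ori X 4 o univ → Pont X w → Pont X w' →
    intM X o w = intM X o w'

end Pool.Agent.MP_e1dc65_gt
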