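import Mathlib.Geometry.Manifold.Instances.Real
import Mathlib.Geometry.Manifold.IsManifold.InteriorBoundary
import Mathlib.Geometry.Manifold.SmoothEmbedding
import Mathlib.Topology.Homotopy.Equiv

/-! PROJECT HC (row MP_e1dc65_gt): definitions used by the statement. -/

open scoped ContDiff Manifold
open Set Topology

noncomputable section

namespace Pool.Agent.MP_e1dc65_gt

/-- A closed connected smooth 4-manifold. -/
structure Closed4 where
  /-- the underlying set -/
  carrier : Type
  [top : TopologicalSpace carrier]
  [t2 : T2Space carrier]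
  [cpt : CompactSpace carrier]
  [conn : ConnectedSpace carrier]
  [chart : ChartedSpace (EuclideanSpace ℝ (Fin 4)) carrier]
  [smooth : IsManifold (𝓡 4) ∞ carrier]

attribute [instance] Closed4.top Closed4.t2 Closed4.cpt Closed4.conn Closed4.chart Closed4.smooth

/-- Orientable: covered by smooth charts whose transition maps have positive Jacobian. -/
def Closed4.Orientable (M : Closed4) : Prop :=
  ∃ A ⊆ IsManifold.maximalAtlas (𝓡 4) ∞ M.carrier, (∀ x, ∃ e ∈ A, x ∈ e.source) ∧
    ∀ e ∈ A, ∀ e' ∈ A, ∀ y ∈ (e.symm.trans e').source, 0 < (fderiv ℝ (e.symm.trans e') y).det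

/-- A compact topological 5-manifold with boundary. -/
structure Compact5 where
  /-- the underlying set -/
  carrier : Type
  [top : TopologicalSpace carrier]
  [t2 : T2Space carrier]
  [cpt : CompactSpace carrier]
  [chart : ChartedSpace (EuclideanHalfSpace 5) carrier]

attribute [instance] Compact5.top Compact5.t2 Compact5.cpt Compact5.chart

/-- `W` is an h-cobordism between `M` and `N`: the embeddings `i`, `j` identify the disjoint union
of `M` and `N` with the boundary of `W`, and both are homotopy equivalences. -/
structure IsHCob (M N : Closed4) (W : Compact5) (i : M.carrier → W.carrier)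
    (j : N.carrier → W.carrier) : Prop where
  embM : IsEmbedding i
  embN : IsEmbedding j
  disj : Disjoint (range i) (range j)
  bdry : range i ∪ range j = (𝓡∂ 5).boundary W.carrier
  heM : ∃ h : ContinuousMap.HomotopyEquiv M.carrier W.carrier, ⇑h.toFun = i
  heN : ∃ h : ContinuousMap.HomotopyEquiv N.carrier W.carrier, ⇑h.toFun = j

/-- topologically h-cobordant -/
def TopHCob (M N : Closed4) : Prop := ∃ W i j, IsHCob M N W i j

/-- smoothly h-cobordant: `W` is a smooth manifold with boundary and `i`, `j` are smooth
embeddings -/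
def SmoothHCob (M N : Closed4) : Prop :=
  ∃ W i j, IsHCob M N W i j ∧ IsManifold (𝓡∂ 5) ∞ W.carrier ∧
    Manifold.IsSmoothEmbedding (𝓡 4) (𝓡∂ 5) ∞ i ∧ Manifold.IsSmoothEmbedding (𝓡 4) (𝓡∂ 5) ∞ j

/-- the final statement -/
def Final : Prop :=
  ∃ M N : Closed4, M.Orientable ∧ N.Orientable ∧ TopHCob M N ∧ ¬SmoothHCob M N

end Pool.Agent.MP_e1dc65_gt
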