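import Mathlib.Analysis.SpecialFunctions.SmoothTransition
import Mathlib.Analysis.SpecialFunctions.Trigonometric.Basic
import Pool.Agent.MP_e1dc65_gt.Defs
import Pool.Agent.MP_e1dc65_gt.Spec0

/-! PROJECT HC: the interfaces between the parts A, E, O, T. -/

open scoped ContDiff Manifold Topology Quaternion Matrix Real
open Set Filter Function Module Pool.Agent.MP_c8d41b_gt.GF

noncomputable section

namespace Pool.Agent.MP_e1dc65_gt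

/-- a compact connected manifold modelled on `E4` as a closed 4-manifold -/
def toC4 (X : Mf E4) [CompactSpace X] [ConnectedSpace X] : Closed4 := { carrier := X }

/-! ### Part A -/

section
variable {E : Type} [NormedAddCommGroup E] [NormedSpace ℝ E]

/-- the orientation `o ∧ dt` of `X × ℝ` -/
def oc (o : Lam E) : Lam (E × ℝ) :=
  mp (ContinuousLinearMap.fst ℝ E ℝ) o * ExteriorAlgebra.ι ℝ (ContinuousLinearMap.snd ℝ E ℝ)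

/-- `emb` as a continuous linear map -/
def embL : ℍ × ℝ →L[ℝ] Rn 5 := LinearMap.toContinuousLinearMap
  { toFun := fun p => emb p.1 p.2
    map_add' := fun p q => by ext k; fin_cases k <;> simp [emb]
    map_smul' := fun c p => by ext k; fin_cases k <;> simp [emb] }

/-- the coframe `(θ, dt)` -/
def cf5 (θ : E →L[ℝ] ℍ) : E × ℝ →L[ℝ] Rn 5 := embL.comp (θ.prodMap (ContinuousLinearMap.id ℝ ℝ))

end

/-- signature zero gives `∫ tr F² = 0` -/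
def SigStmt : Prop :=
  ∀ (X : Mf E4) [CompactSpace X] (o w : X → Lam E4) (Kp Km : Set (X → Lam E4)), Ori X 4 o univ →
    (∀ a ∈ Kp ∪ Km, Cl X 2 a univ) →
    (∀ a ∈ Kp, ∀ b ∈ Kp, intM X o (fun x => a x * b x) = 0) →
    (∀ a ∈ Km, ∀ b ∈ Km, intM X o (fun x => a x * b x) = 0) →
    (∀ α, Cl X 2 α univ → ∃ a ∈ Kp, ∃ b ∈ Km, ∃ η, Fm X 1 η univ ∧
      ∀ x, α x = a x + b x + dM X η x) →
    Pont X w → intM X o w = 0

/-- an involution with eight fixed points and a lift to the spin structure -/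
structure Invol (C : SpinCover) (X : Mf E4) (o : X → Lam E4) (s : X → X)
    (sp : Spin C X.cyl univ) (G : sp.ι → sp.ι → X → C.G) (S : Finset X) : Prop where
  sm : Sm X X s univ
  inv : ∀ x, s (s x) = x
  pos : ∀ i x, (x, 0) ∈ sp.W i → PosB (Pi.basisFun ℝ (Fin 5)) (oc (o x)) (sp.Θ i (x, 0))
  cont : ∀ i j, ContinuousOn (G i j) {x | (x, 0) ∈ sp.W i ∧ (s x, 0) ∈ sp.W j}
  proj : ∀ i j x, (x, 0) ∈ sp.W i → (s x, 0) ∈ sp.W j → C.π (G i j x) =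
    tm ((sp.Θ j (s x, 0)).comp ((Df X X s x).prodMap (ContinuousLinearMap.id ℝ ℝ))) (sp.Θ i (x, 0))
  nat : ∀ i j i' j' x, (x, 0) ∈ sp.W i → (s x, 0) ∈ sp.W j → (x, 0) ∈ sp.W i' →
    (s x, 0) ∈ sp.W j' → G i j x * sp.g i i' (x, 0) = sp.g j j' (s x, 0) * G i' j' x
  sq : ∀ i j x, (x, 0) ∈ sp.W i → (s x, 0) ∈ sp.W j → G j i (s x) * G i j x = 1
  card : S.card = 8
  fix : ∀ x, s x = x ↔ x ∈ S
  lift : ∀ x ∈ S, ∃ (i : sp.ι) (θ : E4 →L[ℝ] ℍ) (h : C.G), (x, 0) ∈ sp.W i ∧ θ.IsInvertible ∧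
    C.π h = tm (sp.Θ i (x, 0)) (cf5 θ) ∧ G i i x = h * C.j (1, -1) * h⁻¹

/-- the Dirac operator and the involution give `∫ tr F² ≠ 0` -/
def DiracStmt : Prop :=
  ∀ (C : SpinCover) (X : Mf E4) [CompactSpace X] (o w : X → Lam E4) (s : X → X)
    (sp : Spin C X.cyl univ) (G : sp.ι → sp.ι → X → C.G) (S : Finset X), Ori X 4 o univ →
    Invol C X o s sp G S → Pont X w → intM X o w ≠ 0

/-! ### The three-manifold `F` -/

/-- congruent modulo the lattice `(2πℤ)ⁿ` -/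
def Lat {n : ℕ} (z z' : Rn n) : Prop := ∀ i, ∃ m : ℤ, z i - z' i = 2 * π * m

def eps : ℝ := 1 / 10
/-- smooth step from `0` (left of `-eps`) to `1` (right of `eps`) -/
def lam (t : ℝ) : ℝ := Real.smoothTransition ((t + eps) / (2 * eps))
/-- strip coordinate of the cut along the circle in direction `i` -/
def jx : Fin 3 → Fin 3 := ![1, 0, 0]
/-- normal coordinate of the cut -/
def kx : Fin 3 → Fin 3 := ![2, 2, 1]
def cj : Fin 3 → ℝ := ![3 * π / 2, π / 2, 3 * π / 2]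
def ck : Fin 3 → ℝ := ![π / 2, 3 * π / 2, π / 2]
def Cut (i : Fin 3) : Set (Rn 3) :=
  {z | ∃ z', Lat z z' ∧ |z' (jx i) - cj i| ≤ eps ∧ z' (kx i) = ck i}
def Main : Set (Rn 3) := {z | ∀ i, z ∉ Cut i}
def Box (i : Fin 3) : Set (Rn 3) :=
  {z | |z (jx i) - cj i| < 2 * eps ∧ |z (kx i) - ck i| < 2 * eps}
/-- the shear -/
def shr (i : Fin 3) (z : Rn 3) : Rn 3 := z + Pi.single i (2 * π * lam (z (jx i) - cj i))
/-- the base point -/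
def q0 : Rn 3 := fun _ => π

/-- `F` is the three-torus cut along three annuli and reglued by Dehn twists -/
structure IsF (F : Mf (Rn 3)) (e₀ : Rn 3 → F) (e : Fin 3 → Rn 3 → F) : Prop where
  ld0 : ∀ z ∈ Main, LDAt (vs (Rn 3)) F e₀ z
  eq0 : ∀ z ∈ Main, ∀ z' ∈ Main, e₀ z = e₀ z' ↔ Lat z z'
  ld : ∀ i, ∀ z ∈ Box i, LDAt (vs (Rn 3)) F (e i) z
  low : ∀ i, ∀ z ∈ Box i, z ∈ Main → z (kx i) ≤ ck i → e i z = e₀ z
  up : ∀ i, ∀ z ∈ Box i, ck i < z (kx i) → e i z = e₀ (shr i z)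
  eq : ∀ i, ∀ z ∈ Box i, ∀ z' ∈ Box i, e i z = e i z' ↔ Lat z z'
  cut : ∀ i, ∀ z ∈ Box i ∩ Cut i, e i z ∉ e₀ '' Main
  dis : ∀ i i', i ≠ i' → ∀ z ∈ Box i, ∀ z' ∈ Box i', e i z ≠ e i' z'
  cov : ∀ x, (∃ z ∈ Main, e₀ z = x) ∨ ∃ i, ∃ z ∈ Box i, e i z = x
  cpt : CompactSpace F
  conn : ConnectedSpace F

/-! ### Part T -/

/-- a thick circle of length 8 with cross-section `B` -/
structure Tube (M : Mf E4) (l : ℝ × Rn 3 → M) (B : Set (Rn 3)) : Prop where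
  ld : ∀ θ, ∀ v ∈ B, LDAt (vs (ℝ × Rn 3)) M l (θ, v)
  eq : ∀ θ θ', ∀ v ∈ B, ∀ v' ∈ B, l (θ, v) = l (θ', v') ↔ (∃ m : ℤ, θ - θ' = 8 * m) ∧ v = v'

/-- `M'` arises from `M` by replacing the tube `l` by the complement of the tube `j` in `Ω` -/
structure Rep (M Ω M' : Mf E4) (l : ℝ × Rn 3 → M) (j : ℝ × Rn 3 → Ω) (a : M → M') (b : Ω → M') :
    Prop where
  oa : OE M M' a (l '' (univ ×ˢ {0}))ᶜ
  ob : OE Ω M' b (j '' (univ ×ˢ {w | nsq w ≤ 1}))ᶜ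
  cov : a '' (l '' (univ ×ˢ {0}))ᶜ ∪ b '' (j '' (univ ×ˢ {w | nsq w ≤ 1}))ᶜ = univ
  eq : ∀ x ∉ l '' (univ ×ˢ {0}), ∀ y ∉ j '' (univ ×ˢ {w | nsq w ≤ 1}), a x = b y ↔
    ∃ θ v, 0 < nsq v ∧ nsq v < 1 ∧ x = l (θ, v) ∧ y = j (θ, (nsq v)⁻¹ • v)

/-- the data that part T uses -/
structure TDat where
  F : Mf (Rn 3)
  e₀ : Rn 3 → F
  e : Fin 3 → Rn 3 → F
  M : Mf E4
  Ω : Mf E4
  ν : F.cyl → M
  l : ℝ × Rn 3 → M
  j₀ : ℝ × Rn 3 → Ω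
  j₁ : ℝ × Rn 3 → Ω

structure TDat.Ok (D : TDat) : Prop where
  isF : IsF D.F D.e₀ D.e
  neck : OE D.F.cyl D.M D.ν univ
  tl : Tube D.M D.l {v | nsq v < 1}
  str : ∀ θ v, |θ| < 3 → nsq v < 1 → D.l (θ, v) = D.ν (D.e₀ (q0 + eps • v), θ)
  off : ∀ θ v, 3 ≤ θ → θ ≤ 5 → nsq v < 1 → D.l (θ, v) ∉ D.ν '' (univ ×ˢ Ioo (-3) 3)
  t0 : Tube D.Ω D.j₀ univ
  t1 : Tube D.Ω D.j₁ univ
  same : ∀ θ w, 1 ≤ θ → θ ≤ 7 → D.j₀ (θ, w) = D.j₁ (θ, w)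
  thin : Thin (D.ν '' ({D.e₀ q0}ᶜ ×ˢ Ioo (-3) 3)) (D.l '' (univ ×ˢ {0}))ᶜ

/-- part T: a bounded homeomorphism after multiplying by a line -/
def TStmt : Prop :=
  ∀ D : TDat, D.Ok → ∀ (M₀ M₁ : Mf E4) (a₀ : D.M → M₀) (b₀ : D.Ω → M₀) (a₁ : D.M → M₁)
    (b₁ : D.Ω → M₁), Rep D.M D.Ω M₀ D.l D.j₀ a₀ b₀ → Rep D.M D.Ω M₁ D.l D.j₁ a₁ b₁ →
    ∃ (Θ : M₁ × ℝ ≃ₜ M₀ × ℝ) (c : ℝ), ∀ p, |(Θ p).2 - p.2| ≤ c

/-! ### Part O -/

/-- logarithmic polar coordinates `(x, y, θ, t)` round the torus port -/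
def pol (z : Rn 4) : Rn 2 × ℂ := (![z 0, z 1], Complex.exp (z 3 + z 2 * Complex.I))

/-- the coordinates of `ℝ⁴ × ℝ` as a coframe -/
def std5 : Rn 4 × ℝ →L[ℝ] Rn 5 := LinearMap.toContinuousLinearMap
  { toFun := fun p => ![p.1 0, p.1 1, p.1 2, p.1 3, p.2]
    map_add' := fun p q => by ext k; fin_cases k <;> simp
    map_smul' := fun c p => by ext k; fin_cases k <;> simp }

/-- the data that part O uses -/
structure ODat where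
  F : Mf (Rn 3)
  M : Mf E4
  N : Mf E4
  Q : Mf E4
  MG : Mf E4
  NG : Mf E4
  νM : F.cyl → M
  νN : Rn 4 → N
  νQ : F.cyl → Q
  κ : Rn 2 × ℂ → Q
  pM : MG → M
  pN : NG → N
  act : ℤ × ℤ → NG → NG

structure ODat.Ok (C : SpinCover) (D : ODat) : Prop where
  cptF : CompactSpace D.F
  connF : ConnectedSpace D.F
  perf : Perf (univ : Set D.F)
  oriM : ∃ o, Ori D.M 4 o univ
  oriN : ∃ o, Ori D.N 4 o univ
  neckM : OE D.F.cyl D.M D.νM univ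
  thin : Thin (range D.νM) univ
  h2M : HZ D.M 1 (D.νM '' (univ ×ˢ {0}))ᶜ
  covM : IsCoveringMap D.pM
  surM : Surjective D.pM
  ldM : ∀ y, LDAt D.MG D.M D.pM y
  spinM : Nonempty (Spin C D.MG.cyl univ)
  neckN : OE (vs (Rn 4)) D.N D.νN {v | v ≠ 0}
  covN : IsCoveringMap D.pN
  surN : Surjective D.pN
  ldN : ∀ y, LDAt D.NG D.N D.pN y
  deckN : ∀ y y', D.pN y = D.pN y' → ∃ h : D.NG ≃ₜ D.NG, (∀ z, D.pN (h z) = D.pN z) ∧ h y = y'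
  scN : SC (D.pN ⁻¹' (D.νN '' {v | nsq v = 1})ᶜ)
  actc : ∀ n, Continuous (D.act n)
  act0 : ∀ y, D.act 0 y = y
  actm : ∀ m n y, D.act (m + n) y = D.act m (D.act n y)
  actp : ∀ n y, D.pN (D.act n y) = D.pN y
  actK : ∃ K, IsCompact K ∧ ∀ y, ∃ n, D.act n y ∈ K
  actd : ∀ K, IsCompact K → {n | (D.act n '' K ∩ K).Nonempty}.Finite
  oriQ : ∃ o, Ori D.Q 4 o univ
  h2Q : HZ D.Q 1 univ
  endQ : OE D.F.cyl D.Q D.νQ univ
  cptQ : ∀ a, IsCompact (D.νQ '' (univ ×ˢ Iio a))ᶜ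
  clQ : ∀ a, IsClosed (D.νQ '' (univ ×ˢ Iic a))
  ldκ : ∀ m w, ‖w‖ < 30 → LDAt (vs (Rn 2 × ℂ)) D.Q D.κ (m, w)
  eqκ : ∀ m m' w w', ‖w‖ < 30 → ‖w'‖ < 30 → (D.κ (m, w) = D.κ (m', w') ↔ Lat m m' ∧ w = w')
  disκ : ∀ m w, ‖w‖ < 30 → D.κ (m, w) ∉ range D.νQ
  spinP : ∃ (sp : Spin C D.Q.cyl ((D.κ '' (univ ×ˢ {0}))ᶜ ×ˢ univ)) (i : sp.ι),
    sp.W i = (D.κ '' (univ ×ˢ {w | 0 < ‖w‖ ∧ ‖w‖ < 30})) ×ˢ univ ∧
    ∀ (z : Rn 4) (t : ℝ), Real.exp (z 3) < 30 → (sp.Θ i (D.κ (pol z), t)).comp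
      ((Df (vs (Rn 4)) D.Q (fun z => D.κ (pol z)) z).prodMap (ContinuousLinearMap.id ℝ ℝ)) = std5

/-- part O -/
def OStmt : Prop :=
  ∀ (C : SpinCover) (D : ODat) [CompactSpace D.M] [ConnectedSpace D.M] [CompactSpace D.N]
    [ConnectedSpace D.N], D.Ok C → ¬SmoothHCob (toC4 D.M) (toC4 D.N)

/-! ### Part E -/

/-- part E: the example -/
def EStmt : Prop :=
  ∀ C : SpinCover, ∃ (T : TDat) (D : ODat) (a₀ : T.M → D.N) (b₀ : T.Ω → D.N) (a₁ : T.M → D.M)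
    (b₁ : T.Ω → D.M), T.Ok ∧ D.Ok C ∧ Rep T.M T.Ω D.N T.l T.j₀ a₀ b₀ ∧
    Rep T.M T.Ω D.M T.l T.j₁ a₁ b₁ ∧ CompactSpace D.M ∧ ConnectedSpace D.M ∧ CompactSpace D.N ∧
    ConnectedSpace D.N

/-- row B4 -/
def OriStmt : Prop :=
  ∀ (X : Mf E4) [CompactSpace X] [ConnectedSpace X] (o : X → Lam E4), Ori X 4 o univ →
    (toC4 X).Orientable

end Pool.Agent.MP_e1dc65_gt
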