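import Pool.Agent.MP_e1dc65_gt.Spec1
import Pool.Agent.MP_e1dc65_gt.u.Spec

/-! PROJECT HC: assembly of the parts. -/

namespace Pool.Agent.MP_e1dc65_gt

theorem assemble (hC : SpinCoverStmt) (hE : EStmt) (hT : TStmt) (hO : OStmt) (hB : OriStmt) :
    Final := by
  obtain ⟨C⟩ := hC
  obtain ⟨T, D, a₀, b₀, a₁, b₁, hTo, hD, r₀, r₁, c1, c2, c3, c4⟩ := hE C
  obtain ⟨Θ, c, hc⟩ := hT T hTo D.N D.M a₀ b₀ a₁ b₁ r₀ r₁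
  obtain ⟨o, ho⟩ := hD.oriM
  obtain ⟨o', ho'⟩ := hD.oriN
  exact ⟨toC4 D.M, toC4 D.N, hB _ o ho, hB _ o' ho', B.topHCob (toC4 D.M) (toC4 D.N) Θ c hc,
    hO C D hD⟩

end Pool.Agent.MP_e1dc65_gt
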